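import Pool.Agent.H95.Freud3

set_option autoImplicit false
open Pool.Agent.H95.Freud Filter Topology Polynomial

theorem Pool.Agent.Results.MP_e8d659_an.Cex.result :
    ∃ (Q : ℝ → ℝ) (p : ℕ → ℝ[X]) (a b : ℕ → ℝ),
      (∀ x, |Q x - x ^ 2 / 2| ≤ 1) ∧ HypH Q 2 (1 / 2) (1 / 2) (fun _ => 1) ∧
      DeBruijn (fun _ => 1) (fun _ => 1) ∧ IsC 2 (1 / 2) (1 / 2) 1 ∧ IsOP Q p a b ∧
      ¬ (Tendsto (fun n => a n / cn 2 (fun _ => 1) n) atTop (𝓝 (aLim 2 (1 / 2) 1)) ∧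
        Tendsto (fun n => b n / cn 2 (fun _ => 1) n) atTop (𝓝 (bLim 2 (1 / 2) 1))) :=
  Pool.Agent.H95.Freud.main
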